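import Pool.Agent.H174.GP.StH

set_option autoImplicit false

/-! Comparison of `Hw` for the Laplace walk and the block walk (model: Pool.Agent.H824.GP174.gcmp) -/

open MeasureTheory ProbabilityTheory Finset Filter Topology

namespace Pool.Agent.H405.GP174

open Pool.Agent.H174.GP

theorem S_meas (j : ℕ) : Measurable (fun ω : ℕ → ℝ => S ω j) := by
  unfold S
  fun_prop

theorem Hw_meas (x : ℕ) : Measurable (fun ω : ℕ → ℝ => Hw ω x) := by
  unfold Hw
  exact Finset.measurable_fun_sum _ fun u _ => (S_meas u).div_const _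

theorem Wb_meas (K : ℕ) : Measurable (fun ω : ℕ → ℝ => Wb K ω) := by
  rw [measurable_pi_iff]
  intro i
  unfold Wb
  exact ((S_meas _).sub (S_meas _)).div_const _

/-- telescoping -/
theorem S_Wb (K : ℕ) (hK : 1 ≤ K) (ω : ℕ → ℝ) (i : ℕ) :
    Real.sqrt 2 * S (Wb K ω) i = S ω (K * i) / Real.sqrt K := by
  have hK0 : (0 : ℝ) < K := by exact_mod_cast hK
  have h1 : S (Wb K ω) i = S ω (K * i) / Real.sqrt (2 * K) := by
    induction i with
    | zero => simp [S]
    | succ i ih =>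
      have h2 : S (Wb K ω) (i + 1) = S (Wb K ω) i + Wb K ω (i + 1) := by
        unfold S
        rw [Finset.sum_Icc_succ_top (by omega)]
      rw [h2, ih]
      unfold Wb
      rw [Nat.add_sub_cancel]
      ring
  rw [h1, Real.sqrt_mul (by norm_num)]
  have h3 : Real.sqrt 2 ≠ 0 := by positivity
  have h4 : Real.sqrt K ≠ 0 := by positivity
  field_simp

/-- **Hcmp** -/
theorem gp_hcmp (h1 : S_Zmp) (h2 : S_couple) (h3 : S_Hdet) : Pool.Agent.H174.GP.S_Hcmp := by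
  intro K n A X t hK hn hA hl hX
  set l := 2 * (A + 1) * Real.log n with hldef
  have hl0 : 0 < l := by linarith
  have hK0 : (0 : ℝ) < K := by exact_mod_cast hK
  have hsK : 0 < Real.sqrt K := Real.sqrt_pos.2 hK0
  have hc := h2 K n A hK hn hA hl
  have hZ := h1 K hK
  have hF : MeasurePreserving (Prod.fst : (ℕ → ℝ) × (ℕ → ℕ) → (ℕ → ℝ)) (PP.prod (GG K)) PP :=
    measurePreserving_fst
  set bad : Set ((ℕ → ℝ) × (ℕ → ℕ)) := {p | ∃ i ∈ Finset.Icc 1 n,
    Real.sqrt K * (8 * l ^ (3 / 2 : ℝ) * (i : ℝ) ^ (1 / 4 : ℝ)) <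
      |S p.1 (K * i) - Real.sqrt K * S (fun j => Z K p j) i|} with hbad
  have key : ∀ p ∉ bad, ∀ x ∈ Finset.Icc 1 n,
      |Real.sqrt 2 * Hw (Wb K p.1) x - Hw (fun i => Z K p i) x| ≤
        32 * l ^ (3 / 2 : ℝ) * (x : ℝ) ^ (1 / 4 : ℝ) := by
    intro p hp x hx
    have h4 := h3 n (Wb K p.1) (fun i => Z K p i) (8 * l ^ (3 / 2 : ℝ)) (by positivity) ?_ x hx
    · refine h4.trans (le_of_eq ?_)
      ring
    · intro i hi
      have h5 : ¬ (Real.sqrt K * (8 * l ^ (3 / 2 : ℝ) * (i : ℝ) ^ (1 / 4 : ℝ)) <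
          |S p.1 (K * i) - Real.sqrt K * S (fun j => Z K p j) i|) := fun h => hp ⟨i, hi, h⟩
      rw [not_lt] at h5
      rw [S_Wb K hK]
      have h6 : S p.1 (K * i) / Real.sqrt K - S (fun i => Z K p i) i =
          (S p.1 (K * i) - Real.sqrt K * S (fun j => Z K p j) i) / Real.sqrt K := by
        field_simp
      rw [h6, abs_div, abs_of_pos hsK, div_le_iff₀ hsK]
      linarith
  have tr : ∀ U V : Set (ℕ → ℝ), MeasurableSet U → MeasurableSet V →
      (∀ p ∉ bad, (fun i => Z K p i) ∈ U → p.1 ∈ V) → PP.real U ≤ PP.real V + 40 * (n : ℝ) ^ (-A) := by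
    intro U V hU hV hUV
    rw [← hZ.measureReal_preimage hU.nullMeasurableSet, ← hF.measureReal_preimage hV.nullMeasurableSet]
    refine le_trans (measureReal_mono (s₂ := (Prod.fst ⁻¹' V) ∪ bad) ?_) ?_
    · intro p hp
      by_cases h : p ∈ bad
      · exact Or.inr h
      · exact Or.inl (hUV p h hp)
    · exact (measureReal_union_le _ _).trans (add_le_add_right hc _)
  have m1 : ∀ (f : (ℕ → ℝ) → ℕ → ℝ) (s : ℕ → ℝ), (∀ x, Measurable fun ω => f ω x) →
      MeasurableSet {ω : ℕ → ℝ | ∀ x ∈ X, s x ≤ f ω x} := by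
    intro f s hf
    have h4 : {ω : ℕ → ℝ | ∀ x ∈ X, s x ≤ f ω x} = ⋂ x ∈ X, {ω : ℕ → ℝ | s x ≤ f ω x} := by
      ext ω
      simp
    rw [h4]
    exact Finset.measurableSet_biInter _ fun x _ => measurableSet_le measurable_const (hf x)
  refine tr _ _ (m1 Hw (fun x => -(t x)) Hw_meas)
    (m1 (fun ω x => Real.sqrt 2 * Hw (Wb K ω) x)
      (fun x => -(t x + 32 * l ^ (3 / 2 : ℝ) * (x : ℝ) ^ (1 / 4 : ℝ)))
      fun x => ((Hw_meas x).comp (Wb_meas K)).const_mul _) ?_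
  intro p hp hU x hx
  have h4 := key p hp x (hX hx)
  have h5 : -(t x) ≤ Hw (fun i => Z K p i) x := hU x hx
  rw [abs_le] at h4
  show -(t x + 32 * l ^ (3 / 2 : ℝ) * (x : ℝ) ^ (1 / 4 : ℝ)) ≤ Real.sqrt 2 * Hw (Wb K p.1) x
  linarith [h4.1]

end Pool.Agent.H405.GP174
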